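import Mathlib
import Pool.Agent.W214.RS.Rank4b
import Pool.Agent.W307.SE.Stm
import Pool.Agent.W307.SE.Locp

/-!
# The 2-Selmer group and the local count, classes with twists

After `Pool.Agent.W214.RS.Rank4b` (the starting files), with the 2-Selmer group in place of the group
of points.
-/

namespace Pool.Agent.TH639.SL

open Finset Pool.Agent.W262.RK Pool.Agent.W307.RS Pool.Agent.W307.SE Pool.Agent.W214.RS

variable {J : Type} [Fintype J] [DecidableEq J]

/-- the 2-Selmer group is bounded by the local count -/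
lemma sel4 (hdesc : SELD) (hxc : XCL) (hloc : LOCLP) {cls : J → Fin 4} {a : Fin 3 → ℤ}
    {α β : J → ℤ} {z y X k B : ℕ} (hB : Big4 a α β z) (ha : ∀ k, a k ≠ 0)
    (hκ0 : ∀ j k, kap4 cls a α β j k ≠ 0) (hκ : ∀ j k, (kap4 cls a α β j k).natAbs ≤ z) {t : ℤ}
    (hF : F4 cls a α β t 0 - F4 cls a α β t 1 = F4 cls a α β t 2)
    (h0 : ∀ j, ff α β t j ≠ 0) (hb : ∀ j, (ff α β t j).natAbs ≤ X ^ B) (hX : 1 ≤ X) (hy : 1 ≤ y)
    (hk : X < (y + 1) ^ k) :
    (Sel (F4 cls a α β t 0) (F4 cls a α β t 1)).Finite ∧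
    (Sel (F4 cls a α β t 0) (F4 cls a α β t 1)).ncard ≤
      4 ^ (z + 2) * ((4 ^ B) ^ Fintype.card J) ^ k * 4 ^ (∑ j, (s2 α β z y t j).primeFactors.card) *
        NL (∏ j, s1 α β z y t j) (LLs cls (kap4 cls a α β) (s1 α β z y t)
          (neg3 cls α β t (s1 α β z y t))) := by
  have hFne : ∀ k, F4 cls a α β t k ≠ 0 := fun k =>
    mul_ne_zero (ha k) (prod_ne_zero_iff.2 fun l _ => h0 l)
  have hz2 : 2 ≤ z := by have := hB.1.1; omega
  set s := s1 α β z y t with hs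
  have hmem : s ∈ Tup J z y := s1_mem hB.1 t
  have hmd : ∏ j, s j ∣ PP z y := Tup_prod_dvd hmem
  have hPSof : ∀ p : ℕ, p.Prime → p ∣ ∏ j, s j → p ∈ PS z y := fun p hp h =>
    (prime_dvd_PP hp).1 (h.trans hmd)
  have hnκ : ∀ p : ℕ, p.Prime → p ∣ ∏ j, s j → ∀ j k, ¬ (p : ℤ) ∣ kap4 cls a α β j k := by
    intro p hp h j k hd
    have h1 := (mem_PS.1 (hPSof p hp h)).1.1
    have h2 := Nat.le_of_dvd (Int.natAbs_pos.2 (hκ0 j k)) (Int.natCast_dvd.1 hd)
    have h3 := hκ j k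
    omega
  have hodd : ∀ p : ℕ, p.Prime → p ∣ ∏ j, s j → p ≠ 2 := by
    intro p hp h
    have h1 := (mem_PS.1 (hPSof p hp h)).1.1
    omega
  have hd := hdesc (∏ j, s j) (LLs cls (kap4 cls a α β) s (neg3 cls α β t s))
    (F4 cls a α β t 0) (F4 cls a α β t 1) (hFne 0) (hFne 1)
    (fun h => hFne 2 (by rw [← hF, h, sub_self]))
    (by
      rw [← Nat.not_even_iff_odd, even_iff_two_dvd]
      intro h
      exact hodd 2 Nat.prime_two h rfl)
    ((PP_squarefree z y).squarefree_of_dvd hmd)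
    (fun p hp hpd => ⟨fun j hj => (hxc _ _ _ p hp (hodd p hp hpd) (hnκ p hp hpd j)).1,
      fun a1 b1 c1 d1 a2 b2 c2 d2 e1 e2 j hj =>
        (hxc _ _ _ p hp (hodd p hp hpd) (hnκ p hp hpd j)).2 a1 b1 c1 d1 a2 b2 c2 d2
          (e1 j hj) (e2 j hj)⟩)
    (fun p hp hpd x x' hx' hcurve e1 e2 he1 he2 hsq1 hsq2 j hj => by
      have hpp : p.Prime := Fact.out
      have hjs : p ∈ PS z y ∧ (p : ℤ) ∣ ff α β t j ∧ ¬ (p : ℤ) ^ 2 ∣ ff α β t j := by
        have h3 : p ∣ ∏ q ∈ (PS z y).filter (fun p : ℕ => (p : ℤ) ∣ ff α β t j ∧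
          ¬ (p : ℤ) ^ 2 ∣ ff α β t j), q := hj
        exact mem_filter.1 ((prime_dvd_prodS (fun q hq => (mem_PS.1 (mem_filter.1 hq).1).2) hpp).1 h3)
      have hzp := (mem_PS.1 hjs.1).1.1
      refine hloc (cls j) (kap4 cls a α β j) _ p _ _ (hodd p hpp hpd) (hnκ p hpp hpd j)
        (locH4 hB hpp hzp hF hjs.2.1 hjs.2.2 (fun h3 => ?_)) x x' hx' hcurve e1 e2 he1 he2 hsq1 hsq2
      rw [decide_eq_true_eq]
      unfold neg3 P3
      rw [mem_filter, Nat.mem_primeFactors]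
      constructor
      · rintro ⟨_, l, hl3, hl, hl2⟩
        have : l = j := by
          by_contra hne
          have h4 := (mem_Tup'.1 hmem).2 l j hne
          exact hpp.one_lt.ne' (Nat.dvd_one.1 (h4 ▸ Nat.dvd_gcd hl hj))
        rwa [this] at hl2
      · intro h5
        refine ⟨⟨hpp, dvd_trans hj (dvd_prod_of_mem s (mem_filter.2 ⟨mem_univ _, h3⟩)), ?_⟩,
          j, h3, hj, h5⟩
        exact prod_ne_zero_iff.2 fun l _ => (Tup_pos hmem l).ne')
  rw [hF] at hd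
  refine ⟨hd.1, hd.2.trans (Nat.mul_le_mul_right _ ?_)⟩
  have hc := bad4B (cls := cls) (y := y) hB hX hy h0 hb hk
  rw [← hs] at hc
  calc 4 ^ (((2 * F4 cls a α β t 0 * F4 cls a α β t 1 *
        F4 cls a α β t 2).natAbs.primeFactors.filter (fun q => ¬ q ∣ ∏ j, s j)).card + 2)
      ≤ 4 ^ ((z + 2) + (Fintype.card J * (B * k)) + ∑ j, (s2 α β z y t j).primeFactors.card) :=
        Nat.pow_le_pow_right (by norm_num) (by omega)
    _ = _ := by
        rw [pow_add, pow_add]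
        congr 2
        rw [← pow_mul, ← pow_mul]
        congr 1
        ring

end Pool.Agent.TH639.SL
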