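import Mathlib
import Pool.Agent.TH639.SL.Sel4b
import Pool.Agent.W307.SE.AvgKG
import Pool.Agent.W307.SE.Fin
import Pool.Agent.W307.RS.MainK
import Pool.Agent.W410.FK.FINH

/-!
# All the moments of the 2-Selmer groups of the twists in short intervals
-/

namespace Pool.Agent.TH639.SL

open Finset Pool.Agent.W262.RK Pool.Agent.W307.RS Pool.Agent.W307.SE Pool.Agent.W307.RT

theorem sel4b : SEL4B := by
  intro J _ _ cls a α β z y X k B hB ha hκ0 hκ t hF h0 hb hX hy hk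
  exact sel4 Pool.Agent.W410.FK.seld Pool.Agent.W342.RK2.xcl
    (loclp_of Pool.Agent.W407.SE.ratp) hB ha hκ0 hκ hF h0 hb hX hy hk

/-- all the moments of the 2-Selmer group in short intervals -/
theorem avgks : AVGKG SN :=
  avgkg_of SN_nonneg (Pool.Agent.W337.RS.cnt4u_of Pool.Agent.W340.RT.SVR2.svr2)
    (r4 sel4b) antu Pool.Agent.W925.RS.subbk
    (mak_of Pool.Agent.W125.RS.expk Pool.Agent.W12.RS.combk)

/-- the roots -/
lemma roots_tw {A B e1 e2 e3 : ℤ}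
    (h : ∀ x : ℤ, x ^ 3 + A * x + B = (x - e1) * (x - e2) * (x - e3)) (d : ℤ) :
    ∀ x : ℤ, x ^ 3 + d ^ 2 * A * x + d ^ 3 * B = (x - d * e1) * (x - d * e2) * (x - d * e3) := by
  intro x
  have h0 := h 0
  have h1 := h 1
  have h2 := h (-1)
  have hs : e1 + e2 + e3 = 0 := by linarith
  have hA : A = e1 * e2 + e1 * e3 + e2 * e3 := by linarith
  have hB : B = -(e1 * e2 * e3) := by linarith
  have he3 : e3 = -e1 - e2 := by linarith
  subst hA hB he3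
  ring

lemma disc_ne {A B e1 e2 e3 : ℤ} (hD : 4 * A ^ 3 + 27 * B ^ 2 ≠ 0)
    (h : ∀ x : ℤ, x ^ 3 + A * x + B = (x - e1) * (x - e2) * (x - e3)) :
    e2 - e1 ≠ 0 ∧ e3 - e1 ≠ 0 ∧ e2 - e3 ≠ 0 := by
  have h0 := h 0
  have h1 := h 1
  have h2 := h (-1)
  have hs : e1 + e2 + e3 = 0 := by linarith
  have hA : A = e1 * e2 + e1 * e3 + e2 * e3 := by linarith
  have hB : B = -(e1 * e2 * e3) := by linarith
  have he3 : e3 = -e1 - e2 := by linarith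
  have hdisc : 4 * A ^ 3 + 27 * B ^ 2 = -((e1 - e2) * (e1 - e3) * (e2 - e3)) ^ 2 := by
    rw [hA, hB, he3]; ring
  rw [hdisc] at hD
  refine ⟨?_, ?_, ?_⟩
  · intro h'; apply hD; rw [show e1 - e2 = -(e2 - e1) by ring, h']; ring
  · intro h'; apply hD; rw [show e1 - e3 = -(e3 - e1) by ring, h']; ring
  · intro h'; apply hD; rw [h']; ring

lemma disc_tw {A B d : ℤ} (hd : d ≠ 0) (hD : 4 * A ^ 3 + 27 * B ^ 2 ≠ 0) :
    4 * (d ^ 2 * A) ^ 3 + 27 * (d ^ 3 * B) ^ 2 ≠ 0 := by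
  intro h'
  apply hD
  have : d ^ 6 * (4 * A ^ 3 + 27 * B ^ 2) = 0 := by linear_combination h'
  exact (mul_eq_zero.1 this).resolve_left (pow_ne_zero 6 hd)

/-- the 2-Selmer group of a twist -/
lemma sel_tw {A B e1 e2 e3 : ℤ} (hD : 4 * A ^ 3 + 27 * B ^ 2 ≠ 0)
    (h : ∀ x : ℤ, x ^ 3 + A * x + B = (x - e1) * (x - e2) * (x - e3)) {d : ℤ} (hd : d ≠ 0) :
    (SelR (d ^ 2 * A) (d ^ 3 * B)).Finite ∧
      ((SelR (d ^ 2 * A) (d ^ 3 * B)).ncard : ℝ) ≤ SN ((e2 - e1) * d) ((e3 - e1) * d) := by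
  obtain ⟨h12, h13, h23⟩ := disc_ne hD h
  have hf : (Sel ((e2 - e1) * d) ((e3 - e1) * d)).Finite :=
    sel_fin Pool.Agent.W410.FK.seld (mul_ne_zero h12 hd) (mul_ne_zero h13 hd)
      (fun h' => h23 (by
        have := mul_right_cancel₀ hd h'
        linarith))
  obtain ⟨h1, h2⟩ := Pool.Agent.W410.FK.selc (d ^ 2 * A) (d ^ 3 * B) (d * e1) (d * e2) (d * e3)
    ((e2 - e1) * d) ((e3 - e1) * d) 1 (disc_tw hd hD) (roots_tw h d) one_ne_zero
    (by push_cast; ring) (by push_cast; ring) hf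
  exact ⟨h1, by unfold SN; exact_mod_cast h2⟩

/-- the moments of the 2-Selmer groups of the twists -/
theorem twist_moments {A B e1 e2 e3 : ℤ} (hD : 4 * A ^ 3 + 27 * B ^ 2 ≠ 0)
    (h : ∀ x : ℤ, x ^ 3 + A * x + B = (x - e1) * (x - e2) * (x - e3))
    (m : ℕ) (γ δ : Fin m → ℤ) (hγ : ∀ i, γ i ≠ 0)
    (hγδ : ∀ i j, i ≠ j → γ i * δ j ≠ γ j * δ i) (k L : ℕ) (hk : 1 ≤ k) :
    ∃ C : ℝ, ∀ (N : ℤ) (M : ℕ), 1 ≤ M → |N| ≤ (M : ℤ) ^ L →
      ∑ t ∈ (Ioc N (N + M)).filter (fun t => ∏ i, (γ i * t + δ i) ≠ 0),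
        ((SelR ((∏ i, (γ i * t + δ i)) ^ 2 * A) ((∏ i, (γ i * t + δ i)) ^ 3 * B)).ncard : ℝ) ^ k
          ≤ C * M := by
  obtain ⟨h12, h13, h23⟩ := disc_ne hD h
  obtain ⟨C, hC⟩ := avgks (Fin m) ![e2 - e1, e3 - e1, e2 - e3] γ δ k L
    (by
      intro i
      fin_cases i
      · exact h12
      · exact h13
      · exact h23)
    (by
      change (e2 - e1) - (e3 - e1) = e2 - e3
      ring) hγ (fun i j hij => by
      unfold Res
      exact sub_ne_zero.2 (hγδ i j hij)) hk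
  refine ⟨C, fun N M hM hN => ?_⟩
  have hN' : N.natAbs ≤ M ^ L := by
    have : ((N.natAbs : ℕ) : ℤ) ≤ ((M ^ L : ℕ) : ℤ) := by
      rw [Int.natCast_natAbs]
      push_cast
      exact hN
    exact_mod_cast this
  set g : ℤ → ℝ := fun t => (SN ((![e2 - e1, e3 - e1, e2 - e3] :
    Fin 3 → ℤ) 0 * ∏ j, ff γ δ t j) ((![e2 - e1, e3 - e1, e2 - e3] : Fin 3 → ℤ) 1 *
      ∏ j, ff γ δ t j)) ^ k with hg
  have hinj : Set.InjOn (fun t : ℕ => N + (t : ℤ)) ((Icc 1 M).filter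
      (fun t : ℕ => ∀ j, ff γ δ (N + (t : ℤ)) j ≠ 0) : Set ℕ) := by
    intro a _ b _ hab
    have : N + (a : ℤ) = N + (b : ℤ) := hab
    omega
  have hsum : ∑ t ∈ (Icc 1 M).filter (fun t : ℕ => ∀ j, ff γ δ (N + (t : ℤ)) j ≠ 0),
      g (N + (t : ℤ)) = ∑ t ∈ ((Icc 1 M).filter
        (fun t : ℕ => ∀ j, ff γ δ (N + (t : ℤ)) j ≠ 0)).image (fun t : ℕ => N + (t : ℤ)), g t :=
    (sum_image hinj).symm
  have hE : ∑ t ∈ (Icc 1 M).filter (fun t : ℕ => ∀ j, ff γ δ (N + (t : ℤ)) j ≠ 0),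
      g (N + (t : ℤ)) ≤ C * M := by
    convert hC N M hM hN'
  have hg0 : ∀ t, 0 ≤ g t := fun t => pow_nonneg (SN_nonneg _ _) _
  refine le_trans ?_ hE
  rw [hsum]
  refine le_trans (sum_le_sum (g := g) fun t ht => ?_) (sum_le_sum_of_subset_of_nonneg ?_ ?_)
  · have hd : ∏ i, (γ i * t + δ i) ≠ 0 := (mem_filter.1 ht).2
    exact pow_le_pow_left₀ (by positivity) (sel_tw hD h hd).2 k
  · intro t ht
    rw [mem_filter, mem_Ioc] at ht
    obtain ⟨⟨ht1, ht2⟩, ht3⟩ := ht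
    rw [mem_image]
    refine ⟨(t - N).toNat, ?_, ?_⟩
    · rw [mem_filter, mem_Icc]
      have h5 : N + (((t - N).toNat : ℕ) : ℤ) = t := by omega
      refine ⟨by omega, fun j => ?_⟩
      rw [h5]
      exact prod_ne_zero_iff.1 ht3 j (mem_univ j)
    · show N + (((t - N).toNat : ℕ) : ℤ) = t
      omega
  · intro t _ _
    exact hg0 t

end Pool.Agent.TH639.SL
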